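import Pool.Agent.Results.MP_c02e9e_co.LogAsymptotics

set_option autoImplicit false

/-!
# Counting nearly decomposable matrices: `log N_n = 3 n log n + O(n log log n)`, explicit
-/

open Finset

namespace Pool.Agent.Results.MP_c02e9e_co.ErrorTerm

open Pool.Agent.Helper543.NearDec

/-- `n! ≤ n^(n+1) e^(1-n)`. -/
theorem log_factorial_le (n : ℕ) (hn : 1 ≤ n) :
    Real.log (n.factorial : ℝ) ≤ ((n : ℝ) + 1) * Real.log n - n + 1 := by
  induction n, hn using Nat.le_induction with
  | base => simp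
  | succ n hn ih =>
    have hn0 : (0 : ℝ) < n := by exact_mod_cast hn
    have hf : (0 : ℝ) < (n.factorial : ℝ) := by exact_mod_cast Nat.factorial_pos n
    rw [Nat.factorial_succ]
    push_cast
    rw [Real.log_mul (by positivity) hf.ne']
    -- `log (n + 1) - log n ≥ 1 / (n + 1)`
    have h1 : 1 / ((n : ℝ) + 1) ≤ Real.log ((n : ℝ) + 1) - Real.log n := by
      have h2 := Real.log_le_sub_one_of_pos (show (0 : ℝ) < n / (n + 1) by positivity)
      rw [Real.log_div hn0.ne' (by positivity)] at h2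
      have h3 : (n : ℝ) / (n + 1) - 1 = -(1 / ((n : ℝ) + 1)) := by field_simp; ring
      linarith
    have h4 : 1 ≤ ((n : ℝ) + 1) * (Real.log ((n : ℝ) + 1) - Real.log n) := by
      calc (1 : ℝ) = ((n : ℝ) + 1) * (1 / ((n : ℝ) + 1)) := by field_simp
        _ ≤ _ := by gcongr
    nlinarith

theorem upper (n : ℕ) (hn : 3 ≤ n) (h0 : 0 < N n) :
    Real.log (N n) ≤ 3 * (n * Real.log n) - n := by
  have hN := N_le (n := n) (by omega)
  have hn0 : (0 : ℝ) < n := by exact_mod_cast (by omega : 0 < n)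
  have hNr : (N n : ℝ) ≤ (n.factorial : ℝ) * (n : ℝ) ^ (2 * (n - 1)) := by exact_mod_cast hN
  have hN0 : (0 : ℝ) < N n := by exact_mod_cast h0
  have h1 := Real.log_le_log hN0 hNr
  have hf : (0 : ℝ) < (n.factorial : ℝ) := by exact_mod_cast Nat.factorial_pos n
  rw [Real.log_mul hf.ne' (by positivity), Real.log_pow] at h1
  have h2 := log_factorial_le n (by omega)
  have h3 : ((2 * (n - 1) : ℕ) : ℝ) = 2 * ((n : ℝ) - 1) := by
    rw [Nat.cast_mul, Nat.cast_sub (by omega)]; norm_num
  rw [h3] at h1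
  have h4 : 1 ≤ Real.log n := by
    rw [Real.le_log_iff_exp_le hn0]
    have h5 := Real.exp_one_lt_d9
    have h6 : (3 : ℝ) ≤ n := by exact_mod_cast hn
    linarith
  nlinarith

theorem lower (n : ℕ) (hn : 3000 ≤ n) :
    3 * (n * Real.log n) - 2 * (n * Real.log (Real.log n)) - 12 * n ≤ Real.log (N n) := by
  have hnR : (3000 : ℝ) ≤ n := by exact_mod_cast hn
  have hn0 : (0 : ℝ) < n := by linarith
  have hlog8 : 8 ≤ Real.log n := by
    rw [Real.le_log_iff_exp_le hn0]
    have h1 : Real.exp 8 = Real.exp 1 ^ 8 := by rw [← Real.exp_nat_mul]; norm_num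
    have h2 := Real.exp_one_lt_d9
    have h3 : Real.exp 1 ^ 8 ≤ 2.7182818286 ^ 8 := pow_le_pow_left₀ (Real.exp_pos _).le h2.le 8
    rw [h1]
    refine h3.trans (le_trans ?_ hnR)
    norm_num
  obtain ⟨K, hK⟩ : ∃ K : ℕ, K = ⌈Real.log n⌉₊ := ⟨_, rfl⟩
  have hK1 : Real.log n ≤ K := by rw [hK]; exact Nat.le_ceil _
  have hK2 : (K : ℝ) < Real.log n + 1 := by rw [hK]; exact Nat.ceil_lt_add_one (by linarith)
  have hK8 : 8 ≤ K := by
    have : (8 : ℝ) ≤ K := hlog8.trans hK1
    exact_mod_cast this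
  have hKR : (8 : ℝ) ≤ K := by exact_mod_cast hK8
  -- `2 K ≤ n`
  have hlogn : Real.log n ≤ n / 3 := by
    have h1 := Real.log_le_sub_one_of_pos (show (0 : ℝ) < n / 6 by positivity)
    rw [Real.log_div hn0.ne' (by norm_num)] at h1
    have h2 : Real.log 6 ≤ 5 := by
      have := Real.log_le_sub_one_of_pos (show (0 : ℝ) < 6 by norm_num)
      linarith
    linarith
  have h2K : 2 * (K : ℝ) ≤ n := by linarith
  have h2K' : 2 * K ≤ n := by exact_mod_cast h2K
  have hl1 : Real.log (2 * K) ≤ Real.log n := Real.log_le_log (by positivity) h2K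
  have hmain := lower_log hK8 h2K' hl1 (by linarith)
  -- `log (2 K) ≤ log (log n) + 3/2`
  have hl2 : Real.log (2 * K) ≤ Real.log (Real.log n) + 3 / 2 := by
    have h1 : 2 * (K : ℝ) ≤ 3 * Real.log n := by linarith
    have h2 := Real.log_le_log (by positivity) h1
    rw [Real.log_mul (x := 3) (y := Real.log n) (by norm_num) (ne_of_gt (by linarith))] at h2
    have h3 : Real.log 3 ≤ 3 / 2 := by
      rw [Real.log_le_iff_le_exp (by norm_num)]
      have := Real.quadratic_le_exp_of_nonneg (x := 3 / 2) (by norm_num)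
      linarith
    linarith
  have h5 : (n : ℝ) * Real.log n * (7 / K) ≤ 7 * n := by
    have h6 : Real.log n / K ≤ 1 := (div_le_one (by linarith)).2 hK1
    calc (n : ℝ) * Real.log n * (7 / K) = 7 * n * (Real.log n / K) := by ring
      _ ≤ 7 * n * 1 := by gcongr
      _ = 7 * n := by ring
  have h7 : (n : ℝ) * (2 + 2 * Real.log (2 * K)) ≤ n * (5 + 2 * Real.log (Real.log n)) := by
    apply mul_le_mul_of_nonneg_left _ hn0.le
    linarith
  have e : (n : ℝ) * Real.log n * (3 - 7 / K) =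
      3 * (n * Real.log n) - (n : ℝ) * Real.log n * (7 / K) := by ring
  rw [e] at hmain
  nlinarith

/-- For all `n ≥ 3000` the number `N n` of nearly decomposable `n × n` matrices satisfies
`3 n log n - 2 n log log n - 12 n ≤ log N n ≤ 3 n log n - n`. -/
theorem result : ∀ n : ℕ, 3000 ≤ n →
    3 * (n * Real.log n) - 2 * (n * Real.log (Real.log n)) - 12 * n ≤ Real.log (N n) ∧
    Real.log (N n) ≤ 3 * (n * Real.log n) - n := by
  intro n hn
  refine ⟨lower n hn, upper n (by omega) ?_⟩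
  have h := N_ge' (n := n) (h := 1) (le_refl _) (by omega)
  have h1 : 0 < (n - 1).factorial * 1 ^ (2 * (n - 3 * 1)) := by
    rw [one_pow, mul_one]; exact Nat.factorial_pos _
  omega

end Pool.Agent.Results.MP_c02e9e_co.ErrorTerm
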